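import Pool.Agent.Helper47.HR.Defs

set_option autoImplicit false

/-! Hermite ring conjecture, module D: extension of a 2-linear operator to a fraction field. -/

namespace Pool.Agent.Helper47.HR

open Polynomial Matrix

theorem ext_frac {R K : Type*} [CommRing R] [IsDomain R] [CharP R 2] [Field K] [Algebra R K]
    [IsFractionRing R K] (D : R →+ R) (hD : ∀ r x, D (r ^ 2 * x) = r ^ 2 * D x) :
    ∃ D' : K →+ K, (∀ r x, D' (r ^ 2 * x) = r ^ 2 * D' x) ∧
      (∀ x, D' (algebraMap R K x) = algebraMap R K (D x)) ∧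
      (∀ c : R, (∀ x, D (c * x) = c * D x) →
        ∀ z, D' (algebraMap R K c * z) = algebraMap R K c * D' z) := by
  classical
  set ι := algebraMap R K with hι
  have hinj : Function.Injective ι := IsFractionRing.injective R K
  have hne : ∀ {v : R}, v ≠ 0 → ι v ≠ 0 := fun {v} hv h => hv (hinj (by rw [h, map_zero]))
  have hrep : ∀ z : K, ∃ u v : R, v ≠ 0 ∧ z = ι u / ι v := by
    intro z
    obtain ⟨u, v, hv, h⟩ := IsFractionRing.div_surjective (A := R) z
    exact ⟨u, v, nonZeroDivisors.ne_zero hv, h.symm⟩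
  choose nu de hde hz using hrep
  let F : K → K := fun z => ι (D (nu z * de z)) / ι (de z) ^ 2
  have key : ∀ (z : K) (u v : R), v ≠ 0 → z = ι u / ι v → F z = ι (D (u * v)) / ι v ^ 2 := by
    intro z u v hv h
    have h1 : nu z * v = u * de z := by
      apply hinj
      have h2 := (hz z).symm.trans h
      rw [div_eq_div_iff (hne (hde z)) (hne hv)] at h2
      rw [map_mul ι, map_mul ι, h2]
    have h3 : v ^ 2 * D (nu z * de z) = de z ^ 2 * D (u * v) := by
      rw [← hD, ← hD]
      congr 1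
      linear_combination (v * de z) * h1
    show ι (D (nu z * de z)) / ι (de z) ^ 2 = ι (D (u * v)) / ι v ^ 2
    rw [div_eq_div_iff (pow_ne_zero 2 (hne (hde z))) (pow_ne_zero 2 (hne hv))]
    have h4 := congrArg ι h3
    rw [map_mul ι, map_mul ι, map_pow, map_pow] at h4
    linear_combination h4
  have hadd : ∀ x y, F (x + y) = F x + F y := by
    intro x y
    have hx := hne (hde x)
    have hy := hne (hde y)
    have h1 : x + y = ι (nu x * de y + nu y * de x) / ι (de x * de y) := by
      conv_lhs => rw [hz x, hz y]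
      rw [map_add, map_mul ι, map_mul ι, map_mul ι]
      field_simp
    rw [key (x + y) _ _ (mul_ne_zero (hde x) (hde y)) h1]
    have h2 : (nu x * de y + nu y * de x) * (de x * de y) =
        de y ^ 2 * (nu x * de x) + de x ^ 2 * (nu y * de y) := by ring
    rw [h2, map_add, hD, hD, map_add, map_mul ι, map_mul ι, map_pow, map_pow, map_mul ι]
    show _ = ι (D (nu x * de x)) / ι (de x) ^ 2 + ι (D (nu y * de y)) / ι (de y) ^ 2
    field_simp
  refine ⟨AddMonoidHom.mk' F hadd, ?_, ?_, ?_⟩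
  · intro r x
    show F (r ^ 2 * x) = r ^ 2 * F x
    have hx := hne (hde x)
    have hr := hne (hde r)
    have h1 : r ^ 2 * x = ι (nu r ^ 2 * nu x) / ι (de r ^ 2 * de x) := by
      conv_lhs => rw [hz x, hz r]
      rw [map_mul ι, map_mul ι, map_pow, map_pow]
      field_simp
    rw [key _ _ _ (mul_ne_zero (pow_ne_zero 2 (hde r)) (hde x)) h1]
    have h2 : nu r ^ 2 * nu x * (de r ^ 2 * de x) = (nu r * de r) ^ 2 * (nu x * de x) := by ring
    rw [h2, hD, map_mul ι, map_pow, map_mul ι, map_mul ι, map_pow]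
    have h3 : r ^ 2 * F x = (ι (nu r) / ι (de r)) ^ 2 * (ι (D (nu x * de x)) / ι (de x) ^ 2) := by
      rw [← hz r]
    rw [h3]
    field_simp
  · intro x
    show F (ι x) = ι (D x)
    rw [key (ι x) x 1 one_ne_zero (by rw [map_one, div_one]), mul_one, map_one, one_pow, div_one]
  · intro c hc z
    show F (ι c * z) = ι c * F z
    have h1 : ι c * z = ι (c * nu z) / ι (de z) := by
      conv_lhs => rw [hz z]
      rw [map_mul ι, mul_div_assoc]
    rw [key _ _ _ (hde z) h1, mul_assoc, hc, map_mul ι, mul_div_assoc]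

theorem coeff_mapD {k : Type*} [CommRing k] (D : k →+ k) (f : k[X]) (i : ℕ) :
    (mapD D f).coeff i = D (f.coeff i) := by
  unfold mapD
  rw [finsetSum_coeff]
  simp_rw [coeff_monomial]
  rw [Finset.sum_ite_eq']
  split_ifs with h
  · rfl
  · have h1 : f.natDegree < i := by
      rw [Finset.mem_range] at h
      omega
    rw [coeff_eq_zero_of_natDegree_lt h1, map_zero]

theorem mapD_add {k : Type*} [CommRing k] (D : k →+ k) (f g : k[X]) :
    mapD D (f + g) = mapD D f + mapD D g := by
  ext i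
  rw [coeff_mapD, coeff_add, map_add, coeff_add, coeff_mapD, coeff_mapD]

theorem mapD_sq {k : Type*} [CommRing k] [CharP k 2] (D : k →+ k)
    (hD : ∀ r x, D (r ^ 2 * x) = r ^ 2 * D x) (r x : k[X]) :
    mapD D (r ^ 2 * x) = r ^ 2 * mapD D x := by
  induction r using Polynomial.induction_on' with
  | add p q hp hq =>
    have h2 : (p + q) ^ 2 = p ^ 2 + q ^ 2 := add_pow_char p q 2
    rw [h2, add_mul, mapD_add, hp, hq, add_mul]
  | monomial n a =>
    rw [monomial_pow, ← C_mul_X_pow_eq_monomial]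
    ext i
    rw [coeff_mapD, mul_assoc, mul_assoc, coeff_C_mul, coeff_C_mul, hD]
    congr 1
    rw [coeff_X_pow_mul', coeff_X_pow_mul']
    split_ifs with h
    · rw [coeff_mapD]
    · rw [map_zero]

theorem exists_k : ∃ (k : Type) (_ : Field k) (_ : CharP k 2) (D : k →+ k) (x y : k),
    (∀ r z, D (r ^ 2 * z) = r ^ 2 * D z) ∧ D 1 = 0 ∧ D x = 0 ∧ D y = 0 ∧ D (x * y) = 1 := by
  let R := MvPolynomial (Fin 2) (ZMod 2)
  let D0 : R →+ R := ((MvPolynomial.pderiv 0 : Derivation (ZMod 2) R R) : R →ₗ[ZMod 2] R).toAddMonoidHom.comp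
    ((MvPolynomial.pderiv 1 : Derivation (ZMod 2) R R) : R →ₗ[ZMod 2] R).toAddMonoidHom
  have hD0 : ∀ x, D0 x = MvPolynomial.pderiv 0 (MvPolynomial.pderiv 1 x) := fun x => rfl
  have h2 : (2 : R) = 0 := CharP.cast_eq_zero R 2
  have hpd : ∀ (i : Fin 2) (r x : R), MvPolynomial.pderiv i (r ^ 2 * x) =
      r ^ 2 * MvPolynomial.pderiv i x := by
    intro i r x
    rw [Derivation.leibniz, Derivation.leibniz_pow]
    simp only [smul_eq_mul, nsmul_eq_mul]
    have : ((2 : ℕ) : R) = 0 := by exact_mod_cast h2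
    rw [this]
    ring
  obtain ⟨D', h1, h3, -⟩ := ext_frac (K := FractionRing R) D0 (fun r x => by
    rw [hD0, hD0, hpd, hpd])
  refine ⟨FractionRing R, inferInstance, ?_, D', algebraMap R _ (MvPolynomial.X 0),
    algebraMap R _ (MvPolynomial.X 1), h1, ?_, ?_, ?_, ?_⟩
  · exact IsFractionRing.charP_of_isFractionRing R 2
  · rw [← map_one (algebraMap R (FractionRing R)), h3, hD0]
    simp
  · rw [h3, hD0]
    simp [MvPolynomial.pderiv_X]
  · rw [h3, hD0]
    simp [MvPolynomial.pderiv_X]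
  · rw [← map_mul, h3, hD0]
    simp [MvPolynomial.pderiv_X, Derivation.leibniz]

theorem ext_ratfunc {k : Type*} [Field k] [CharP k 2] (D : k →+ k)
    (hD : ∀ r x, D (r ^ 2 * x) = r ^ 2 * D x) :
    ∃ D' : FractionRing k[X] →+ FractionRing k[X],
      (∀ r x, D' (r ^ 2 * x) = r ^ 2 * D' x) ∧
      (∀ f : k[X], D' (algebraMap k[X] (FractionRing k[X]) f)
        = algebraMap k[X] (FractionRing k[X]) (mapD D f)) ∧
      (∀ z, D' (algebraMap k[X] (FractionRing k[X]) X * z)
        = algebraMap k[X] (FractionRing k[X]) X * D' z) := by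
  obtain ⟨D', h1, h2, h3⟩ := ext_frac (K := FractionRing k[X])
    (AddMonoidHom.mk' (mapD D) (mapD_add D)) (fun r x => mapD_sq D hD r x)
  refine ⟨D', h1, h2, h3 X fun x => ?_⟩
  show mapD D (X * x) = X * mapD D x
  ext i
  rw [coeff_mapD]
  cases i with
  | zero => rw [coeff_X_mul_zero, coeff_X_mul_zero, map_zero]
  | succ i => rw [coeff_X_mul, coeff_X_mul, coeff_mapD]

end Pool.Agent.Helper47.HR
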